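import Mathlib

namespace Pool.Agent.Results.MP_4a7e1d_al.No

open Quaternion

universe u

/-- The underlying multiplicative structure of the quotient `F / Γ`: zero together with
the group `Fˣ / Γ`. -/
abbrev Quo (F : Type*) [DivisionRing F] (Γ : Subgroup Fˣ) := WithZero (Fˣ ⧸ Γ)

open Classical in
/-- The class `[x]` of an element of `F`. -/
noncomputable def cls {F : Type*} [DivisionRing F] (Γ : Subgroup Fˣ) (x : F) : Quo F Γ :=
  if h : x = 0 then 0 else ((QuotientGroup.mk (Units.mk0 x h) : Fˣ ⧸ Γ) : WithZero (Fˣ ⧸ Γ))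

/-- The hyperaddition of `F / Γ`. -/
def hadd {F : Type*} [DivisionRing F] (Γ : Subgroup Fˣ) (a b : Quo F Γ) : Set (Quo F Γ) :=
  {c | ∃ x y : F, cls Γ x = a ∧ cls Γ y = b ∧ cls Γ (x + y) = c}

/-- An isomorphism of the hyperfields `F / Γ` and `K / Δ`. -/
def IsIso {F K : Type*} [DivisionRing F] [DivisionRing K] (Γ : Subgroup Fˣ) [Γ.Normal]
    (Δ : Subgroup Kˣ) [Δ.Normal] (f : Quo F Γ ≃ Quo K Δ) : Prop :=
  f 0 = 0 ∧ (∀ a b, f (a * b) = f a * f b) ∧
    ∀ a b, f '' hadd Γ a b = hadd Δ (f a) (f b)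

section general
variable {F : Type*} [DivisionRing F] (Γ : Subgroup Fˣ)

lemma cls_zero : cls Γ 0 = 0 := by simp [cls]

lemma cls_ne {x : F} (h : x ≠ 0) :
    cls Γ x = ((QuotientGroup.mk (Units.mk0 x h) : Fˣ ⧸ Γ) : WithZero (Fˣ ⧸ Γ)) := by
  simp [cls, h]

lemma cls_eq_zero {x : F} : cls Γ x = 0 ↔ x = 0 := by
  by_cases h : x = 0
  · simp [h, cls_zero]
  · simp [cls_ne Γ h, h]

lemma cls_mul [Γ.Normal] (x y : F) : cls Γ (x * y) = cls Γ x * cls Γ y := by
  by_cases hx : x = 0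
  · simp [hx, cls_zero]
  by_cases hy : y = 0
  · simp [hy, cls_zero]
  rw [cls_ne Γ hx, cls_ne Γ hy, cls_ne Γ (mul_ne_zero hx hy), ← WithZero.coe_mul,
    ← QuotientGroup.mk_mul]
  congr 2
  ext; simp

lemma cls_surj (a : Quo F Γ) : ∃ x, cls Γ x = a := by
  induction a using WithZero.recZeroCoe with
  | zero => exact ⟨0, cls_zero Γ⟩
  | coe a =>
    obtain ⟨u, rfl⟩ := QuotientGroup.mk_surjective a
    exact ⟨u, by rw [cls_ne Γ u.ne_zero]; simp⟩
end general

/-- the norm one group of the rational quaternions -/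
noncomputable def G : Subgroup (ℍ[ℚ])ˣ :=
  (Units.map (normSq : ℍ[ℚ] →*₀ ℚ).toMonoidHom).ker

instance : G.Normal := by unfold G; infer_instance

lemma mem_G (u : (ℍ[ℚ])ˣ) : u ∈ G ↔ normSq (u : ℍ[ℚ]) = 1 := by
  simp [G, MonoidHom.mem_ker, Units.ext_iff]

lemma cls_eq_iff (x y : ℍ[ℚ]) : cls G x = cls G y ↔ normSq x = normSq y := by
  by_cases hx : x = 0
  · subst hx
    rw [cls_zero, eq_comm, cls_eq_zero, map_zero, eq_comm (a := (0:ℚ)), normSq_eq_zero]
  by_cases hy : y = 0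
  · subst hy
    rw [cls_zero, cls_eq_zero, map_zero, normSq_eq_zero]
  rw [cls_ne G hx, cls_ne G hy, WithZero.coe_inj, QuotientGroup.eq, mem_G]
  have h1 : normSq x ≠ 0 := normSq_ne_zero.2 hx
  simp only [Units.val_mul, Units.val_inv_eq_inv_val, Units.val_mk0, map_mul, map_inv₀]
  constructor
  · intro h; field_simp at h; exact h.symm
  · intro h; rw [← h]; field_simp

lemma comm (a b : (ℍ[ℚ])ˣ ⧸ G) : a * b = b * a := by
  obtain ⟨u, rfl⟩ := QuotientGroup.mk_surjective a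
  obtain ⟨v, rfl⟩ := QuotientGroup.mk_surjective b
  rw [← QuotientGroup.mk_mul, ← QuotientGroup.mk_mul, QuotientGroup.eq, mem_G]
  have h1 : normSq (u : ℍ[ℚ]) ≠ 0 := normSq_ne_zero.2 u.ne_zero
  have h2 : normSq (v : ℍ[ℚ]) ≠ 0 := normSq_ne_zero.2 v.ne_zero
  simp only [Units.val_mul, Units.val_inv_eq_inv_val, map_mul, map_inv₀]
  field_simp

lemma tri (u v : ℍ[ℚ]) : Real.sqrt ((normSq (u + v) : ℚ) : ℝ) ≤
    Real.sqrt ((normSq u : ℚ) : ℝ) + Real.sqrt ((normSq v : ℚ) : ℝ) := by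
  have hu : (0:ℝ) ≤ ((normSq u : ℚ) : ℝ) := by exact_mod_cast normSq_nonneg
  have hv : (0:ℝ) ≤ ((normSq v : ℚ) : ℝ) := by exact_mod_cast normSq_nonneg
  have h1 : ((u * star v).re) ^ 2 ≤ normSq u * normSq v := by
    have : normSq (u * star v) = normSq u * normSq v := by rw [map_mul, normSq_star]
    rw [← this, normSq_def']
    nlinarith [sq_nonneg (u * star v).imI, sq_nonneg (u * star v).imJ, sq_nonneg (u * star v).imK]
  have h2 : (((u * star v).re : ℚ) : ℝ) ^ 2 ≤ ((normSq u : ℚ) : ℝ) * ((normSq v : ℚ) : ℝ) := by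
    exact_mod_cast h1
  have h3 : (((u * star v).re : ℚ) : ℝ) ≤
      Real.sqrt ((normSq u : ℚ) : ℝ) * Real.sqrt ((normSq v : ℚ) : ℝ) := by
    rw [← Real.sqrt_mul hu]
    exact Real.le_sqrt_of_sq_le h2
  apply Real.sqrt_le_iff.2
  refine ⟨by positivity, ?_⟩
  rw [normSq_add, add_sq, Real.sq_sqrt hu, Real.sq_sqrt hv]
  push_cast
  nlinarith

lemma norm_eq {L : Type u} [NormedField L] [NormedAlgebra ℝ L] (e : L ≃ₐ[ℝ] ℂ) (x : L) :
    ‖e x‖ = ‖x‖ := by
  haveI : FiniteDimensional ℝ L := e.symm.toLinearEquiv.finiteDimensional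
  apply le_antisymm
  · have hb : (e : L →+* ℂ).IsBounded := by
      obtain ⟨C, hC, h⟩ := (LinearMap.toContinuousLinearMap e.toLinearMap).bound
      exact ⟨C, hC, fun x => h x⟩
    exact contraction_of_isPowMul (fun a n _ => norm_pow a n) hb x
  · have hb : (e.symm : ℂ →+* L).IsBounded := by
      obtain ⟨C, hC, h⟩ := (LinearMap.toContinuousLinearMap e.symm.toLinearMap).bound
      exact ⟨C, hC, fun x => h x⟩
    have := contraction_of_isPowMul (fun a n _ => norm_pow a n) hb (e x)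
    simpa using this

lemma embed (K : Type u) [NormedField K] (h : ∀ n : ℕ, ‖(n : K)‖ = n) :
    ∃ σ : K →+* ℂ, ∀ x, ‖σ x‖ = ‖x‖ := by
  let L := UniformSpace.Completion K
  have hL : ∀ n : ℕ, ‖(n : L)‖ = n := by
    intro n
    have : ((n : K) : L) = (n : L) :=
      map_natCast (UniformSpace.Completion.coeRingHom : K →+* L) n
    rw [← this, UniformSpace.Completion.norm_coe, h]
  haveI : CharZero L := ⟨fun a b hab => by
    have := hL a
    rw [hab, hL b] at this
    exact_mod_cast this.symm⟩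
  have hZ : ∀ n : ℤ, ‖(n : L)‖ = |(n : ℝ)| := by
    intro n
    obtain ⟨m, rfl | rfl⟩ := Int.eq_nat_or_neg n
    · simp [hL]
    · simp [hL]
  have hQ : ∀ q : ℚ, ‖(q : L)‖ = |(q : ℝ)| := by
    intro q
    rw [Rat.cast_def, Rat.cast_def, norm_div, hZ, hL, abs_div, Nat.abs_cast]
  have hiso : Isometry (Rat.castHom L) := by
    apply Isometry.of_dist_eq
    intro a b
    rw [dist_eq_norm, ← map_sub, Rat.coe_castHom, hQ, Rat.dist_eq]
    push_cast; rfl
  let g : ℝ →+* L := IsDenseInducing.extendRingHom (i := Rat.castHom ℝ) (f := Rat.castHom L)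
    Rat.isUniformEmbedding_coe_real.isUniformInducing Rat.denseRange_cast hiso.uniformContinuous
  have gc : Continuous g :=
    (uniformContinuous_uniformly_extend Rat.isUniformEmbedding_coe_real.isUniformInducing
      Rat.denseRange_cast hiso.uniformContinuous).continuous
  have gn : ∀ r : ℝ, ‖g r‖ = |r| := by
    intro r
    refine Rat.denseRange_cast.induction_on (p := fun r : ℝ => ‖g r‖ = |r|) r ?_ ?_
    · exact isClosed_eq gc.norm continuous_abs
    · intro q
      rw [map_ratCast, hQ]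
  letI : Algebra ℝ L := g.toAlgebra
  letI : NormedAlgebra ℝ L :=
    { norm_smul_le := fun r x => by
        rw [Algebra.smul_def, norm_mul]
        exact le_of_eq (by rw [show algebraMap ℝ L r = g r from rfl, gn, Real.norm_eq_abs]) }
  rcases NormedAlgebra.Real.nonempty_algEquiv_or L with ⟨⟨e⟩⟩ | ⟨⟨e⟩⟩
  · refine ⟨Complex.ofRealHom.comp ((e : L →+* ℝ).comp UniformSpace.Completion.coeRingHom), ?_⟩
    intro x
    have h1 : (x : L) = g (e (x : L)) := by
      apply e.injective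
      rw [show g (e (x : L)) = algebraMap ℝ L (e (x : L)) from rfl, AlgEquiv.commutes]
      rfl
    rw [← UniformSpace.Completion.norm_coe x, h1, gn]
    simp [UniformSpace.Completion.coeRingHom]
  · refine ⟨(e : L →+* ℂ).comp UniformSpace.Completion.coeRingHom, ?_⟩
    intro x
    rw [← UniformSpace.Completion.norm_coe x, ← norm_eq e]
    rfl

lemma nat_norm {K : Type u} [Field K] (v : AbsoluteValue K ℝ) (d : K) (h1 : v d = 1)
    (h2 : v (1 + d) = 2) (n : ℕ) : v (n : K) = n := by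
  have hle : ∀ n : ℕ, v (n : K) ≤ n := by
    intro n
    induction n with
    | zero => simp
    | succ n ih =>
      push_cast
      have := v.add_le (n : K) 1
      rw [map_one] at this
      linarith
  have h3 : v (2 : K) = 2 := by
    have a1 := hle 2
    have a2 : v ((1 + d) ^ 2) = 4 := by rw [map_pow, h2]; norm_num
    have a3 : (1 + d) ^ 2 = (1 + 2 * d) + d ^ 2 := by ring
    have a4 := v.add_le (1 + 2 * d) (d ^ 2)
    have a5 := v.add_le 1 (2 * d)
    rw [← a3, a2, map_pow, h1] at a4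
    rw [map_mul, h1, map_one] at a5
    push_cast at a1
    linarith
  apply le_antisymm (hle n)
  have a1 : n ≤ 2 ^ n := Nat.lt_two_pow_self.le
  obtain ⟨m, hm⟩ := Nat.exists_eq_add_of_le a1
  have a2 : v (((2 ^ n : ℕ)) : K) = ((2 ^ n : ℕ) : ℝ) := by
    push_cast; rw [map_pow, h3]
  have a3 := v.add_le (n : K) (m : K)
  rw [hm] at a2
  push_cast at a2
  have := hle m
  linarith

theorem result : ∃ (F : Type) (_ : DivisionRing F) (Γ : Subgroup Fˣ) (_ : Γ.Normal),
    (∀ a b : Fˣ ⧸ Γ, a * b = b * a) ∧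
    ∀ (K : Type u) [Field K] (Δ : Subgroup Kˣ) (f : Quo F Γ ≃ Quo K Δ), ¬ IsIso Γ Δ f := by
  refine ⟨ℍ[ℚ], inferInstance, G, inferInstance, comm, ?_⟩
  rintro K _ Δ f ⟨h0, hm, ha⟩
  choose r hr using fun x : K => cls_surj G (f.symm (cls Δ x))
  have hr' : ∀ x, f (cls G (r x)) = cls Δ x := fun x => by rw [hr]; simp
  set N : K → ℚ := fun x => normSq (r x) with hN
  have key : ∀ (x : K) (u : ℍ[ℚ]), f (cls G u) = cls Δ x ↔ normSq u = N x := by
    intro x u
    rw [← hr' x, f.apply_eq_iff_eq, cls_eq_iff]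
  have Nmul : ∀ x y, N (x * y) = N x * N y := by
    intro x y
    have : f (cls G (r x * r y)) = cls Δ (x * y) := by
      rw [cls_mul, hm, hr', hr', cls_mul]
    rw [← (key _ _).1 this, map_mul]
  have N0 : ∀ x, N x = 0 ↔ x = 0 := by
    intro x
    rw [← cls_eq_zero Δ, ← h0, ← cls_zero G, eq_comm (a := cls Δ x), key, map_zero, eq_comm]
  have Nn : ∀ x, (0:ℝ) ≤ (N x : ℝ) := fun x => by exact_mod_cast normSq_nonneg
  have A : ∀ x y, ∃ u v : ℍ[ℚ], normSq u = N x ∧ normSq v = N y ∧ normSq (u + v) = N (x + y) := by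
    intro x y
    have : cls Δ (x + y) ∈ f '' hadd G (cls G (r x)) (cls G (r y)) := by
      rw [ha, hr', hr']
      exact ⟨x, y, rfl, rfl, rfl⟩
    obtain ⟨c, ⟨u, v, hu, hv, rfl⟩, hc⟩ := this
    exact ⟨u, v, (cls_eq_iff _ _).1 hu, (cls_eq_iff _ _).1 hv, (key _ _).1 hc⟩
  have N1 : N 1 = 1 := by
    have a := Nmul 1 1
    have b : N 1 ≠ 0 := fun h => one_ne_zero ((N0 1).1 h)
    rw [mul_one] at a
    exact (mul_eq_left₀ b).1 a.symm
  have B : ∀ u : ℍ[ℚ], normSq u = 1 → ∃ d : K, N d = 1 ∧ N (1 + d) = normSq (1 + u) := by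
    intro u hu
    have : f (cls G (1 + u)) ∈ hadd Δ (f (cls G 1)) (f (cls G u)) := by
      rw [← ha]
      exact ⟨_, ⟨1, u, rfl, rfl, rfl⟩, rfl⟩
    obtain ⟨x, y, hx, hy, hxy⟩ := this
    have a1 := (key _ _).1 hx.symm
    have a2 := (key _ _).1 hy.symm
    have a3 := (key _ _).1 hxy.symm
    rw [map_one] at a1
    have hx0 : x ≠ 0 := fun h => by
      rw [(N0 x).2 h] at a1; exact one_ne_zero a1
    refine ⟨y / x, ?_, ?_⟩
    · have := Nmul (y / x) x
      rw [div_mul_cancel₀ _ hx0, ← a1, ← a2, hu, mul_one] at this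
      exact this.symm
    · have := Nmul (1 + y / x) x
      rw [add_mul, div_mul_cancel₀ _ hx0, one_mul, ← a1, mul_one] at this
      rw [← this, a3]
  let v : AbsoluteValue K ℝ :=
    { toFun := fun x => Real.sqrt (N x)
      map_mul' := fun x y => by
        simp only [Nmul]; push_cast; rw [Real.sqrt_mul (Nn x)]
      nonneg' := fun x => Real.sqrt_nonneg _
      eq_zero' := fun x => by
        simp only [Real.sqrt_eq_zero (Nn x)]
        rw [← N0]; exact Rat.cast_eq_zero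
      add_le' := fun x y => by
        obtain ⟨u, w, h1, h2, h3⟩ := A x y
        simp only [← h1, ← h2, ← h3]
        exact tri u w }
  have hv : ∀ x, v x = Real.sqrt (N x) := fun _ => rfl
  obtain ⟨d0, e1, e2⟩ := B 1 (map_one _)
  have e3 : normSq (1 + 1 : ℍ[ℚ]) = 4 := by
    rw [normSq_def']; simp; norm_num
  have hn := nat_norm v d0 (by rw [hv, e1]; simp) (by
    rw [hv, e2, e3]
    rw [show ((4 : ℚ) : ℝ) = 2 ^ 2 by norm_num]
    exact Real.sqrt_sq (by norm_num))
  letI : NormedField K := v.toNormedField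
  obtain ⟨σ, hσ⟩ := embed K hn
  have hs : ∀ x, Complex.normSq (σ x) = (N x : ℝ) := by
    intro x
    rw [Complex.normSq_eq_norm_sq, hσ]
    exact Real.sq_sqrt (Nn x)
  obtain ⟨d1, p1, p2⟩ := B ⟨0, 1, 0, 0⟩ (by rw [normSq_def']; simp)
  obtain ⟨d2, q1, q2⟩ := B ⟨1/2, 1/2, 1/2, 1/2⟩ (by rw [normSq_def']; norm_num)
  have p3 : normSq (1 + ⟨0, 1, 0, 0⟩ : ℍ[ℚ]) = 2 := by
    rw [normSq_def']; simp; norm_num
  have q3 : normSq (1 + ⟨1/2, 1/2, 1/2, 1/2⟩ : ℍ[ℚ]) = 3 := by
    rw [normSq_def']; simp; norm_num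
  have s1 := hs d1
  have s2 := hs (1 + d1)
  have s3 := hs d2
  have s4 := hs (1 + d2)
  have s5 := hs (1 + d1 * d2)
  have s6 := hs (d1 * d2)
  rw [p1] at s1
  rw [p2, p3] at s2
  rw [q1] at s3
  rw [q2, q3] at s4
  rw [Nmul, p1, q1] at s6
  simp only [map_add, map_one, map_mul, Complex.normSq_apply, Complex.add_re, Complex.add_im,
    Complex.one_re, Complex.one_im, Complex.mul_re, Complex.mul_im] at s1 s2 s3 s4 s5
  push_cast at s1 s2 s3 s4
  set a := (σ d1).re
  set b := (σ d1).im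
  set c := (σ d2).re
  set d := (σ d2).im
  have ha0 : a = 0 := by nlinarith
  have hc : c = 1 / 2 := by nlinarith
  rw [ha0] at s1 s5
  rw [hc] at s3 s5
  have hb : b ^ 2 = 1 := by nlinarith
  have hd : d ^ 2 = 3 / 4 := by nlinarith
  have t1 : ((N (1 + d1 * d2) : ℚ) : ℝ) = 2 - 2 * (b * d) := by
    rw [← s5]
    have : (b * d) ^ 2 = 3 / 4 := by rw [mul_pow, hb, hd]; norm_num
    nlinarith
  have t2 : (((N (1 + d1 * d2) - 2 : ℚ)) : ℝ) ^ 2 = 3 := by
    push_cast
    rw [t1]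
    have : (b * d) ^ 2 = 3 / 4 := by rw [mul_pow, hb, hd]; norm_num
    nlinarith
  have t3 : Irrational (Real.sqrt (3 : ℕ)) := Nat.Prime.irrational_sqrt (by norm_num)
  apply t3
  refine ⟨|N (1 + d1 * d2) - 2|, ?_⟩
  rw [Rat.cast_abs, ← Real.sqrt_sq_eq_abs, t2]
  norm_num

end Pool.Agent.Results.MP_4a7e1d_al.No
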